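import Pool.Agent.Helper98.QR.StmtsE

/-!
# Row E00: finiteness
-/

namespace QR89

open QR

theorem finite_rmap (D : Type) [Finite D] : Finite (RMap D) := by
  have : Finite (Equiv.Perm D) := inferInstance
  refine Finite.of_injective (fun m : RMap D => (m.rot, m.opp)) ?_
  intro m m' h
  simp only [Prod.mk.injEq] at h
  exact RMap.ext h.1 h.2

theorem finite_vert {D : Type} [Finite D] (m : RMap D) : Finite m.Vert := by
  unfold RMap.Vert
  infer_instance

theorem finite_face {D : Type} [Finite D] (m : RMap D) : Finite m.Face := by
  unfold RMap.Face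
  infer_instance

theorem st_E00 : ST_E00 := fun D _ => ⟨finite_rmap D, fun m => finite_vert m⟩

end QR89
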